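import Mathlib
import Pool.Agent.Run7.h820.SR.Stm

/-!
# Project SR (helper820): the piece AVL
-/

set_option autoImplicit false
open Complex Filter Topology Set Metric MeasureTheory

namespace Run7.h957.SR

open Run7.h820.SR
open Pool.Agent.TH325.SI (mn em la)
open Pool.Agent.H713R2 (tc)

lemma log_one_sub_diff : DifferentiableOn ℂ (fun w : ℂ => Complex.log (1 - w)) (ball 0 1) := by
  intro w hw
  have hw1 : ‖w‖ < 1 := mem_ball_zero_iff.1 hw
  have hs : 1 - w ∈ slitPlane := by
    rw [Complex.mem_slitPlane_iff]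
    left
    have h1 : w.re ≤ ‖w‖ := Complex.re_le_norm w
    simp only [Complex.sub_re, Complex.one_re]
    linarith
  exact (((differentiableAt_const (1:ℂ)).sub differentiableAt_id).clog hs).differentiableWithinAt

lemma tc_log : (fun n : ℕ => -(1 / (n : ℂ))) = tc (fun w : ℂ => Complex.log (1 - w)) := by
  refine Pool.Agent.H713R2.tc_unique (r := 1) one_pos log_one_sub_diff ?_
  filter_upwards [ball_mem_nhds (0 : ℂ) one_pos] with x hx
  have h := (Complex.hasSum_taylorSeries_neg_log (mem_ball_zero_iff.1 hx)).neg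
  rw [neg_neg] at h
  refine h.congr_fun ?_ |> fun h => h
  intro n
  ring

lemma mn_log {q : ℝ} (h0 : 0 < q) (h1 : q < 1) :
    mn (fun w : ℂ => Complex.log (1 - w)) q ≤ 2 := by
  have h := Pool.Agent.TH325.SI.par log_one_sub_diff h0 h1
  rw [← tc_log] at h
  have h2 := hasSum_le (fun n : ℕ => ?_) h hasSum_zeta_two
  · have hpi : Real.pi < 3.15 := Real.pi_lt_d2
    have hpi0 := Real.pi_pos
    refine h2.trans ?_
    nlinarith
  · simp only
    rw [norm_neg, norm_div, norm_one, Complex.norm_natCast, div_pow, one_pow]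
    have h3 : q ^ (2 * n) ≤ 1 := pow_le_one₀ h0.le h1.le
    have h4 : (0:ℝ) ≤ 1 / (n:ℝ) ^ 2 := by positivity
    nlinarith

theorem t_AVL : S_AVL := by
  intro z s hzs
  have hs : 0 < s := lt_of_le_of_lt (norm_nonneg z) hzs
  by_cases hz : z = 0
  · subst hz
    simp
  have hz0 : 0 < ‖z‖ := norm_pos_iff.2 hz
  have hq0 : 0 < ‖z‖ / s := by positivity
  have hq1 : ‖z‖ / s < 1 := (div_lt_one hs).2 hzs
  set G : ℝ → ℝ := fun θ => ‖Complex.log (1 - circleMap 0 (‖z‖ / s) θ)‖ ^ 2 with hG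
  have hper : Function.Periodic G (2 * Real.pi) := by
    intro θ
    simp only [hG]
    rw [periodic_circleMap 0 (‖z‖ / s) θ]
  have he : ∀ φ : ℝ, ‖Complex.log (1 - z / circleMap 0 s φ)‖ ^ 2 = G (z.arg - φ) := by
    intro φ
    simp only [hG]
    congr 4
    simp only [circleMap, zero_add]
    have h1 : z = ‖z‖ * Complex.exp (z.arg * I) := (Complex.norm_mul_exp_arg_mul_I z).symm
    conv_lhs => rw [h1]
    have hs' : (s : ℂ) ≠ 0 := by exact_mod_cast hs.ne'
    push_cast
    rw [sub_mul, Complex.exp_sub]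
    field_simp
  have hint : ∫ φ in (0:ℝ)..(2 * Real.pi), ‖Complex.log (1 - z / circleMap 0 s φ)‖ ^ 2 =
      ∫ φ in (0:ℝ)..(2 * Real.pi), G φ := by
    calc ∫ φ in (0:ℝ)..(2 * Real.pi), ‖Complex.log (1 - z / circleMap 0 s φ)‖ ^ 2
        = ∫ φ in (0:ℝ)..(2 * Real.pi), G (z.arg - φ) :=
          intervalIntegral.integral_congr fun φ _ => he φ
      _ = ∫ φ in (z.arg - 2 * Real.pi)..(z.arg - 0), G φ :=
          intervalIntegral.integral_comp_sub_left G z.arg
      _ = ∫ φ in (z.arg - 2 * Real.pi)..(z.arg - 2 * Real.pi + 2 * Real.pi), G φ := by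
          congr 1; ring
      _ = ∫ φ in (0:ℝ)..(0 + 2 * Real.pi), G φ := hper.intervalIntegral_add_eq _ _
      _ = _ := by rw [zero_add]
  rw [hint]
  exact mn_log hq0 hq1

end Run7.h957.SR
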