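import Mathlib
import Pool.Agent.Run7.h820.SR.Stm

/-!
# Project SR (helper820): the piece BLK
-/

set_option autoImplicit false
open Complex Filter Topology Set Metric MeasureTheory

namespace Run7.h957.SR

open Run7.h820.SR
open Pool.Agent.TH325.SI (mn em la)
open Pool.Agent.W677.Mar (Sg IsG0 NN NN_mul NN_diff log_diff goluzin)

lemma bb_lower {κ : ℝ} (h0 : 0 < κ) (h1 : κ ≤ 1) : 1 / 3 ≤ bb κ := by
  unfold bb
  have h2 : Real.exp (-1) ≤ Real.exp (-κ) := Real.exp_le_exp.2 (by linarith)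
  have h3 : (0.36:ℝ) < Real.exp (-1) := by
    have := Real.exp_neg_one_gt_d9
    linarith
  have h4 : Real.exp (-κ) < 1 := by rw [Real.exp_lt_one_iff]; linarith
  have h5 : Real.log (1 - Real.exp (-κ)) ≤ Real.log (Real.exp (-(1/3))) := by
    apply Real.log_le_log (by linarith)
    have h6 := Real.add_one_le_exp (-(1/3 : ℝ))
    linarith
  rw [Real.log_exp] at h5
  linarith

/-- `-log (1 - x)` is monotone -/
lemma nl_mono {x y : ℝ} (h : x ≤ y) (hy : y < 1) : -Real.log (1 - x) ≤ -Real.log (1 - y) := by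
  have := Real.log_le_log (by linarith : 0 < 1 - y) (by linarith : 1 - y ≤ 1 - x)
  linarith

lemma nl_nonneg {x : ℝ} (h0 : 0 ≤ x) (h1 : x < 1) : 0 ≤ -Real.log (1 - x) := by
  have := Real.log_nonpos (by linarith : 0 ≤ 1 - x) (by linarith)
  linarith

lemma norm_log_one_sub_le {x : ℂ} (h : ‖x‖ < 1) :
    ‖Complex.log (1 - x)‖ ≤ -Real.log (1 - ‖x‖) := by
  have h1 := (Complex.hasSum_taylorSeries_neg_log h)
  have h2 := Real.hasSum_pow_div_log_of_abs_lt_one (x := ‖x‖) (by rw [abs_of_nonneg (norm_nonneg _)]; exact h)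
  have h3 : ‖-Complex.log (1 - x)‖ ≤ -Real.log (1 - ‖x‖) := by
    rw [← h1.tsum_eq, ← h2.tsum_eq]
    have hz : (fun n : ℕ => ‖x ^ n / (n : ℂ)‖) = fun n : ℕ => ‖x‖ ^ n / (n : ℝ) := by
      funext n
      rw [norm_div, norm_pow, Complex.norm_natCast]
    have hs2 : Summable (fun n : ℕ => ‖x‖ ^ n / (n : ℝ)) := by
      rw [← summable_nat_add_iff 1]
      refine h2.summable.congr fun n => ?_
      push_cast
      rfl
    have hs : Summable (fun n : ℕ => ‖x ^ n / (n : ℂ)‖) := by rw [hz]; exact hs2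
    refine (norm_tsum_le_tsum_norm hs).trans ?_
    rw [hz, hs2.tsum_eq_zero_add]
    simp
  rwa [norm_neg] at h3

theorem t_BLK (hBND : S_BND) : S_BLK := by
  intro Y H f κ v₀ S hfc hfe hf0 hκ0 hκ1 hv
  set r : ℝ := Real.exp (-3 * κ) with hr
  have hr0 : 0 < r := Real.exp_pos _
  have hrne : (r : ℂ) ≠ 0 := by exact_mod_cast hr0.ne'
  have hv0 : 0 < ‖v₀‖ := by rw [hv]; exact Real.exp_pos _
  have hv0' : v₀ ≠ 0 := norm_pos_iff.1 hv0
  have hv1 : ‖v₀‖ < 1 := by rw [hv, Real.exp_lt_one_iff]; linarith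
  have hvb : v₀ ∈ ball (0:ℂ) 1 := mem_ball_zero_iff.2 hv1
  -- the point `r w`
  have hnrw : ∀ w : ℂ, ‖(r : ℂ) * w‖ = r * ‖w‖ := by
    intro w
    rw [norm_mul, Complex.norm_real, Real.norm_of_nonneg hr0.le]
  have hrw : ∀ w ∈ ball (0:ℂ) (Real.exp (2 * κ)), ‖(r : ℂ) * w‖ < Real.exp (-κ) := by
    intro w hw
    rw [hnrw]
    have h1 : ‖w‖ < Real.exp (2 * κ) := mem_ball_zero_iff.1 hw
    calc r * ‖w‖ < r * Real.exp (2 * κ) := mul_lt_mul_of_pos_left h1 hr0
      _ = Real.exp (-κ) := by rw [hr, ← Real.exp_add]; congr 1; ring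
  have heκ : Real.exp (-κ) < 1 := by rw [Real.exp_lt_one_iff]; linarith
  have hrwb : ∀ w ∈ ball (0:ℂ) (Real.exp (2 * κ)), (r : ℂ) * w ∈ ball (0:ℂ) 1 := by
    intro w hw
    exact mem_ball_zero_iff.2 ((hrw w hw).trans heκ)
  have hq : ∀ w ∈ ball (0:ℂ) (Real.exp (2 * κ)), ‖(r : ℂ) * w / v₀‖ < 1 := by
    intro w hw
    rw [norm_div, hv, div_lt_one (Real.exp_pos _)]
    exact hrw w hw
  have hslit : ∀ w ∈ ball (0:ℂ) (Real.exp (2 * κ)), 1 - (r : ℂ) * w / v₀ ∈ slitPlane := by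
    intro w hw
    rw [Complex.mem_slitPlane_iff]
    left
    have h1 := Complex.re_le_norm ((r : ℂ) * w / v₀)
    have h2 := hq w hw
    simp only [Complex.sub_re, Complex.one_re]
    linarith
  -- the function `f (v₀, ·)`
  have hfd : DifferentiableOn ℂ (fun z => f (v₀, z)) (ball 0 1) := by
    refine log_diff isOpen_ball ?_ (NN_diff S.G.diff hvb) (fun z hz => hfe v₀ hvb z hz)
    apply hfc.comp (by fun_prop)
    intro w hw
    exact ⟨hvb, hw⟩
  have hmul : DifferentiableOn ℂ (fun w : ℂ => (r : ℂ) * w) (ball 0 (Real.exp (2 * κ))) :=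
    (differentiable_id.const_mul _).differentiableOn
  have hγ1 : DifferentiableOn ℂ (fun w : ℂ => f (v₀, (r : ℂ) * w)) (ball 0 (Real.exp (2 * κ))) :=
    hfd.comp hmul hrwb
  have hγ2 : DifferentiableOn ℂ (fun w : ℂ => Complex.log (1 - (r : ℂ) * w / v₀))
      (ball 0 (Real.exp (2 * κ))) := by
    intro w hw
    refine DifferentiableWithinAt.clog ?_ (hslit w hw)
    exact (differentiableWithinAt_const _).sub ((hmul w hw).div_const _)
  have hγ : DifferentiableOn ℂ (fun w : ℂ => f (v₀, (r : ℂ) * w) +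
      Complex.log (1 - (r : ℂ) * w / v₀)) (ball 0 (Real.exp (2 * κ))) := hγ1.add hγ2
  have hHr : DifferentiableOn ℂ (fun w : ℂ => H ((r : ℂ) * w)) (ball 0 (Real.exp (2 * κ))) :=
    S.dH.comp hmul hrwb
  -- the exponential of `γ`
  have hexp : ∀ w ∈ ball (0:ℂ) (Real.exp (2 * κ)),
      Complex.exp (f (v₀, (r : ℂ) * w) + Complex.log (1 - (r : ℂ) * w / v₀)) =
        Y ((r : ℂ) * w) - (r : ℂ) * w * Y v₀ / v₀ := by
    intro w hw
    rw [Complex.exp_add, hfe v₀ hvb _ (hrwb w hw),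
      Complex.exp_log (Complex.slitPlane_ne_zero (hslit w hw))]
    have h1 := NN_mul Y v₀ ((r : ℂ) * w)
    field_simp
    linear_combination (-1) * h1
  have h0b : (0:ℂ) ∈ ball (0:ℂ) 1 := mem_ball_self one_pos
  set γ : ℂ → ℂ := fun w : ℂ => f (v₀, (r : ℂ) * w) + Complex.log (1 - (r : ℂ) * w / v₀) with hγdef
  have hγ0 : γ 0 = 0 := by
    simp only [hγdef, mul_zero, zero_div, sub_zero, Complex.log_one, add_zero]
    exact hf0 v₀ hvb
  have heq : ∀ w ∈ ball (0:ℂ) (Real.exp (2 * κ)),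
      Complex.exp (H ((r : ℂ) * w) - γ w) = 1 - w * deriv γ w := by
    intro w hw
    have hwn : ball (0:ℂ) (Real.exp (2 * κ)) ∈ 𝓝 w := isOpen_ball.mem_nhds hw
    have hγd : HasDerivAt γ (deriv γ w) w := (hγ.differentiableAt hwn).hasDerivAt
    have h1 : HasDerivAt (fun w => Complex.exp (γ w)) (Complex.exp (γ w) * deriv γ w) w :=
      hγd.cexp
    have hrwn : ball (0:ℂ) 1 ∈ 𝓝 ((r : ℂ) * w) := isOpen_ball.mem_nhds (hrwb w hw)
    have hYd : HasDerivAt Y (deriv Y ((r : ℂ) * w)) ((r : ℂ) * w) :=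
      (S.G.diff.differentiableAt hrwn).hasDerivAt
    have hm : HasDerivAt (fun w : ℂ => (r : ℂ) * w) (r : ℂ) w := by
      simpa using (hasDerivAt_id w).const_mul (r : ℂ)
    have hY2 : HasDerivAt (fun w : ℂ => Y ((r : ℂ) * w)) (deriv Y ((r : ℂ) * w) * r) w :=
      hYd.comp w hm
    have h2 : HasDerivAt (fun w : ℂ => Y ((r : ℂ) * w) - (r : ℂ) * w * Y v₀ / v₀)
        (deriv Y ((r : ℂ) * w) * r - r * Y v₀ / v₀) w := by
      exact hY2.sub ((hm.mul_const (Y v₀)).div_const v₀)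
    have h3 : HasDerivAt (fun w => Complex.exp (γ w))
        (deriv Y ((r : ℂ) * w) * r - r * Y v₀ / v₀) w := by
      refine h2.congr_of_eventuallyEq ?_
      filter_upwards [hwn] with u hu
      exact hexp u hu
    have h4 := h1.unique h3
    have h5 := hexp w hw
    have h6 := S.eq _ (hrwb w hw)
    have h7 : Complex.exp (γ w) ≠ 0 := Complex.exp_ne_zero _
    rw [Complex.exp_sub, div_eq_iff h7, h6]
    have h5' : Complex.exp (γ w) = Y ((r : ℂ) * w) - (r : ℂ) * w * Y v₀ / v₀ := h5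
    have h8 : (1 - w * deriv γ w) * Complex.exp (γ w) =
        Complex.exp (γ w) - w * (Complex.exp (γ w) * deriv γ w) := by ring
    rw [h8, h4, h5']
    field_simp
    ring
  -- sup bounds
  have hbb3 : 1 / 3 ≤ bb κ := bb_lower hκ0 hκ1
  have hbb0 : 0 ≤ bb κ := by linarith
  have hsub : ∀ w : ℂ, ‖w‖ ≤ Real.exp κ → w ∈ ball (0:ℂ) (Real.exp (2 * κ)) := by
    intro w hw
    refine mem_ball_zero_iff.2 (hw.trans_lt ?_)
    exact Real.exp_lt_exp.2 (by linarith)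
  have hnr : ∀ w : ℂ, ‖w‖ ≤ Real.exp κ → ‖(r : ℂ) * w‖ ≤ Real.exp (-(2 * κ)) := by
    intro w hw
    rw [hnrw]
    calc r * ‖w‖ ≤ r * Real.exp κ := mul_le_mul_of_nonneg_left hw hr0.le
      _ = Real.exp (-(2 * κ)) := by rw [hr, ← Real.exp_add]; congr 1; ring
  have he2 : Real.exp (-(2 * κ)) ≤ Real.exp (-κ) := Real.exp_le_exp.2 (by linarith)
  have hsq : ∀ x : ℝ, 0 ≤ x → x ≤ Real.exp (-κ) → x ^ 2 ≤ Real.exp (-κ) := by
    intro x hx0 hx1
    nlinarith
  have hlog : ∀ w : ℂ, ‖w‖ ≤ Real.exp κ → ‖Complex.log (1 - (r : ℂ) * w / v₀)‖ ≤ bb κ := by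
    intro w hw
    have h1 := hq w (hsub w hw)
    refine (norm_log_one_sub_le h1).trans ?_
    unfold bb
    refine nl_mono ?_ heκ
    rw [norm_div, hv, div_le_iff₀ (Real.exp_pos _), ← Real.exp_add]
    refine (hnr w hw).trans (le_of_eq ?_)
    congr 1
    ring
  have hla : ∀ x : ℝ, 0 ≤ x → x ≤ Real.exp (-κ) → 0 ≤ la x ∧ la x ≤ bb κ := by
    intro x hx0 hx1
    have h1 := hsq x hx0 hx1
    exact ⟨nl_nonneg (sq_nonneg x) (h1.trans_lt heκ), nl_mono h1 heκ⟩
  have hfb : ∀ w : ℂ, ‖w‖ ≤ Real.exp κ → ‖f (v₀, (r : ℂ) * w)‖ ≤ bb κ := by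
    intro w hw
    have h1 := hBND Y H (fun z => f (v₀, z)) v₀ ((r : ℂ) * w) S hv0' hvb (hrwb w (hsub w hw))
      hfd (hf0 v₀ hvb) (fun z hz => hfe v₀ hvb z hz)
    have h2 := hla ‖v₀‖ hv0.le (by rw [hv])
    have h3 := hla ‖(r : ℂ) * w‖ (norm_nonneg _) ((hnr w hw).trans he2)
    have h4 : ‖f (v₀, (r : ℂ) * w)‖ ^ 2 ≤ bb κ ^ 2 := by
      refine h1.trans ?_
      rw [sq]
      exact mul_le_mul h2.2 h3.2 h3.1 hbb0
    exact (abs_le_of_sq_le_sq' h4 hbb0).2
  have hHb : ∀ w : ℂ, ‖w‖ ≤ Real.exp κ → ‖H ((r : ℂ) * w)‖ ≤ bb κ := by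
    intro w hw
    refine (goluzin S (hrwb w (hsub w hw))).trans ?_
    exact nl_mono (hsq _ (norm_nonneg _) ((hnr w hw).trans he2)) heκ
  refine ⟨hκ0, hκ1, by linarith, hγ, hHr.sub hγ, hγ0, ?_, heq, ?_, ?_, ?_⟩
  · show H ((r : ℂ) * 0) - γ 0 = 0
    rw [hγ0, mul_zero, S.H0, sub_zero]
  · -- injectivity
    intro w hw w' hw' hww
    have hww' : w * Complex.exp (-γ w) = w' * Complex.exp (-γ w') := hww
    by_cases h0 : w = 0
    · rw [h0, zero_mul] at hww'
      rcases mul_eq_zero.1 hww'.symm with h | h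
      · rw [h0, h]
      · exact absurd h (Complex.exp_ne_zero _)
    · by_cases h0' : w' = 0
      · rw [h0', zero_mul] at hww'
        rcases mul_eq_zero.1 hww' with h | h
        · exact absurd h h0
        · exact absurd h (Complex.exp_ne_zero _)
      · have e1 : Complex.exp (γ w) * w' = Complex.exp (γ w') * w := by
          rw [Complex.exp_neg, Complex.exp_neg] at hww'
          have h7 : Complex.exp (γ w) ≠ 0 := Complex.exp_ne_zero _
          have h7' : Complex.exp (γ w') ≠ 0 := Complex.exp_ne_zero _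
          field_simp at hww'
          linear_combination (-1) * hww'
        have h5 : Complex.exp (γ w) = Y ((r : ℂ) * w) - (r : ℂ) * w * Y v₀ / v₀ := hexp w hw
        have h5' : Complex.exp (γ w') = Y ((r : ℂ) * w') - (r : ℂ) * w' * Y v₀ / v₀ := hexp w' hw'
        rw [h5, h5'] at e1
        have e2 : Y ((r : ℂ) * w) * w' = Y ((r : ℂ) * w') * w := by
          have : (r : ℂ) * w * Y v₀ / v₀ * w' = (r : ℂ) * w' * Y v₀ / v₀ * w := by ring
          linear_combination e1 + this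
        have hA : (r : ℂ) * w ∈ ball (0:ℂ) 1 \ {0} := ⟨hrwb w hw, by simpa using mul_ne_zero hrne h0⟩
        have hB : (r : ℂ) * w' ∈ ball (0:ℂ) 1 \ {0} := ⟨hrwb w' hw', by simpa using mul_ne_zero hrne h0'⟩
        have h8 := S.G.inj hA hB (by
          show Y ((r : ℂ) * w) / ((r : ℂ) * w) = Y ((r : ℂ) * w') / ((r : ℂ) * w')
          rw [div_eq_div_iff (mul_ne_zero hrne h0) (mul_ne_zero hrne h0')]
          linear_combination (r : ℂ) * e2)
        exact mul_left_cancel₀ hrne h8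
  · intro w hw
    have h1 : ‖γ w‖ ≤ ‖f (v₀, (r : ℂ) * w)‖ + ‖Complex.log (1 - (r : ℂ) * w / v₀)‖ :=
      norm_add_le _ _
    have h2 := hfb w hw
    have h3 := hlog w hw
    linarith
  · intro w hw
    have h1 : ‖γ w‖ ≤ ‖f (v₀, (r : ℂ) * w)‖ + ‖Complex.log (1 - (r : ℂ) * w / v₀)‖ :=
      norm_add_le _ _
    have h2 := hfb w hw
    have h3 := hlog w hw
    have h4 := hHb w hw
    have h5 : ‖H ((r : ℂ) * w) - γ w‖ ≤ ‖H ((r : ℂ) * w)‖ + ‖γ w‖ := norm_sub_le _ _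
    show ‖H ((r : ℂ) * w) - γ w‖ ≤ 3 * bb κ
    linarith

end Run7.h957.SR
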